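import Pool.Agent.Lib.MP_39c2b7_co.H22.Lapi

/-!
Module GEO of project SA (MP_39c2b7_co): realized patterns are placed.
-/

namespace StrongArb.H22

open StrongArb

/-! ### Booleans -/

theorem memB_iff (l : List ℕ) (a : ℕ) : memB l a = true ↔ a ∈ l := by
  unfold memB
  rw [List.any_eq_true]
  simp only [Nat.beq_eq]
  constructor
  · rintro ⟨x, hx, rfl⟩; exact hx
  · intro h; exact ⟨a, h, rfl⟩

theorem consIn_symm {l : List ℕ} {a b : ℕ} (h : ConsIn l a b) : ConsIn l b a := by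
  obtain ⟨i, j, hi, hj, h1, h2, h3⟩ := h
  exact ⟨j, i, hj, hi, h2, h1, cycAdj_comm.1 h3⟩

theorem consB_iff (l : List ℕ) (a b : ℕ) : consB l a b = true ↔ ConsIn l a b := by
  unfold consB
  rw [List.any_eq_true]
  simp only [Bool.or_eq_true, Bool.and_eq_true, Nat.beq_eq]
  constructor
  · rintro ⟨q, hq, h⟩
    obtain ⟨i, hi, rfl⟩ := List.getElem_of_mem hq
    rw [List.length_zip, List.length_rotate, min_self] at hi
    rw [List.getElem_zip] at h
    simp only [List.getElem_rotate] at h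
    have hj : (i + 1) % l.length < l.length := Nat.mod_lt _ (by omega)
    rcases h with h | h
    · exact ⟨i, (i + 1) % l.length, hi, hj, h.1, h.2, Or.inl rfl⟩
    · exact ⟨(i + 1) % l.length, i, hj, hi, h.2, h.1, Or.inr rfl⟩
  · rintro ⟨i, j, hi, hj, h1, h2, h3⟩
    rcases h3 with h3 | h3
    · refine ⟨(l.zip (l.rotate 1))[i]'(by simpa using hi), List.getElem_mem _, ?_⟩
      rw [List.getElem_zip]
      simp only [List.getElem_rotate]
      left
      simp only [← h3]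
      exact ⟨h1, h2⟩
    · refine ⟨(l.zip (l.rotate 1))[j]'(by simpa using hj), List.getElem_mem _, ?_⟩
      rw [List.getElem_zip]
      simp only [List.getElem_rotate]
      right
      simp only [← h3]
      exact ⟨h2, h1⟩

theorem consIn_mem {l : List ℕ} {a b : ℕ} (h : ConsIn l a b) : a ∈ l ∧ b ∈ l := by
  obtain ⟨i, j, hi, hj, h1, h2, _⟩ := h
  exact ⟨h1 ▸ List.getElem_mem _, h2 ▸ List.getElem_mem _⟩

theorem kB_iff (P : Pat) (a b : ℕ) : P.kB a b = true ↔ P.K.Adj a b := by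
  unfold Pat.kB Pat.K
  simp only [Bool.and_eq_true, Bool.not_eq_true', List.any_eq_true, List.mem_range,
    Bool.or_eq_true, Nat.beq_eq, memB_iff, consB_iff]
  have h1 : (Nat.beq a b = false) ↔ a ≠ b := by
    rw [ne_eq, ← Nat.beq_eq, Bool.not_eq_true]
  rw [h1]
  constructor
  · rintro ⟨h, v, hv, h'⟩
    refine ⟨h, v, hv, ?_⟩
    tauto
  · rintro ⟨h, v, hv, h'⟩
    refine ⟨h, v, hv, ?_⟩
    rcases h' with h' | h' | h' | h'
    · exact Or.inl (Or.inl h')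
    · exact Or.inl (Or.inr h')
    · exact Or.inr h'
    · exact Or.inr (consIn_symm h')

theorem cB_iff (P : Pat) (v u x : ℕ) : P.cB v u x = true ↔ v < P.nI ∧ ConsIn (P.link v) u x := by
  unfold Pat.cB
  rw [Bool.and_eq_true, consB_iff, Nat.blt_eq]

theorem ringB_iff (P : Pat) (r : ℕ) : P.ringB r = true ↔ P.IsRing r := by
  unfold Pat.ringB Pat.IsRing
  rw [Bool.and_eq_true, Nat.blt_eq, Nat.ble_eq]

theorem mergedB_iff (P : Pat) (r : ℕ) : P.mergedB r = true ↔ P.Merged r := by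
  unfold Pat.mergedB Pat.Merged
  simp only [List.any_eq_true, List.mem_range, Bool.and_eq_true, Bool.not_eq_true', ringB_iff,
    Nat.beq_eq]
  constructor
  · rintro ⟨r', _, ⟨h1, h2⟩, h3⟩
    refine ⟨r', h1, ?_, h3⟩
    rintro rfl
    rw [Nat.beq_refl] at h2
    exact absurd h2 (by decide)
  · rintro ⟨r', h1, h2, h3⟩
    refine ⟨r', h1.2, ⟨h1, ?_⟩, h3⟩
    rw [← Bool.not_eq_true, Nat.beq_eq]
    exact h2

theorem excB_iff (exc : List (ℕ × ℕ)) (u d : ℕ) : Pat.excB exc u d = true ↔ (u, d) ∈ exc := by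
  unfold Pat.excB
  simp only [List.any_eq_true, Bool.and_eq_true, Nat.beq_eq]
  constructor
  · rintro ⟨⟨a, b⟩, h, rfl, rfl⟩; exact h
  · intro h; exact ⟨_, h, rfl, rfl⟩

/-! ### small cycles -/

variable {V : Type} {G : SimpleGraph V}

theorem ind4 {y0 y1 y2 y3 : V} (h01 : G.Adj y0 y1) (h12 : G.Adj y1 y2) (h23 : G.Adj y2 y3)
    (h30 : G.Adj y3 y0) (n02 : ¬ G.Adj y0 y2) (n13 : ¬ G.Adj y1 y3) (e02 : y0 ≠ y2)
    (e13 : y1 ≠ y3) : IsIndCycle G [y0, y1, y2, y3] where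
  nodup := by
    simp only [List.nodup_cons, List.mem_cons, List.not_mem_nil, or_false, not_or, not_false_iff,
      List.nodup_nil, and_true]
    exact ⟨⟨h01.ne, e02, h30.ne'⟩, ⟨h12.ne, e13⟩, h23.ne⟩
  len := by simp
  adj := by
    have n20 : ¬ G.Adj y2 y0 := fun h => n02 h.symm
    have n31 : ¬ G.Adj y3 y1 := fun h => n13 h.symm
    intro i j hi hj
    simp only [List.length_cons, List.length_nil] at hi hj
    have hi' : i < 4 := by omega
    have hj' : j < 4 := by omega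
    simp only [List.length_cons, List.length_nil]
    rw [cycAdj_iff (by omega) (by omega)]
    interval_cases i <;> interval_cases j <;>
      simp [h01, h12, h23, h30, n02, n13, n20, n31, h01.symm, h12.symm, h23.symm, h30.symm]

theorem ind5 {y0 y1 y2 y3 y4 : V} (h01 : G.Adj y0 y1) (h12 : G.Adj y1 y2) (h23 : G.Adj y2 y3)
    (h34 : G.Adj y3 y4) (h40 : G.Adj y4 y0) (n02 : ¬ G.Adj y0 y2) (n03 : ¬ G.Adj y0 y3)
    (n13 : ¬ G.Adj y1 y3) (n14 : ¬ G.Adj y1 y4) (n24 : ¬ G.Adj y2 y4) (e02 : y0 ≠ y2)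
    (e03 : y0 ≠ y3) (e13 : y1 ≠ y3) (e14 : y1 ≠ y4) (e24 : y2 ≠ y4) :
    IsIndCycle G [y0, y1, y2, y3, y4] where
  nodup := by
    simp only [List.nodup_cons, List.mem_cons, List.not_mem_nil, or_false, not_or, not_false_iff,
      List.nodup_nil, and_true]
    exact ⟨⟨h01.ne, e02, e03, h40.ne'⟩, ⟨h12.ne, e13, e14⟩, ⟨h23.ne, e24⟩, h34.ne⟩
  len := by simp
  adj := by
    have n20 : ¬ G.Adj y2 y0 := fun h => n02 h.symm
    have n30 : ¬ G.Adj y3 y0 := fun h => n03 h.symm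
    have n31 : ¬ G.Adj y3 y1 := fun h => n13 h.symm
    have n41 : ¬ G.Adj y4 y1 := fun h => n14 h.symm
    have n42 : ¬ G.Adj y4 y2 := fun h => n24 h.symm
    intro i j hi hj
    simp only [List.length_cons, List.length_nil] at hi hj
    have hi' : i < 5 := by omega
    have hj' : j < 5 := by omega
    simp only [List.length_cons, List.length_nil]
    rw [cycAdj_iff (by omega) (by omega)]
    interval_cases i <;> interval_cases j <;>
      simp [h01, h12, h23, h34, h40, n02, n03, n13, n14, n24, n20, n30, n31, n41, n42,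
        h01.symm, h12.symm, h23.symm, h34.symm, h40.symm]

/-- a 4-cycle without chords in X ∪ C which meets X is the link of a vertex of X -/
theorem small4 {C : List V} {X : Set V} (hR : Region G C X) {y0 y1 y2 y3 : V}
    (h01 : G.Adj y0 y1) (h12 : G.Adj y1 y2) (h23 : G.Adj y2 y3)
    (h30 : G.Adj y3 y0) (n02 : ¬ G.Adj y0 y2) (n13 : ¬ G.Adj y1 y3) (e02 : y0 ≠ y2)
    (e13 : y1 ≠ y3) (m0 : y0 ∈ X ∨ y0 ∈ C) (m1 : y1 ∈ X) (m2 : y2 ∈ X ∨ y2 ∈ C)
    (m3 : y3 ∈ X ∨ y3 ∈ C) :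
    ∃ w ∈ X, dg G w = 4 ∧ G.Adj w y0 ∧ G.Adj w y1 ∧ G.Adj w y2 ∧ G.Adj w y3 := by
  obtain ⟨w, hw, hl⟩ := hR.small [y0, y1, y2, y3] (ind4 h01 h12 h23 h30 n02 n13 e02 e13)
    (by simp) (by
      intro x hx
      simp only [List.mem_cons, List.not_mem_nil, or_false] at hx
      rcases hx with rfl | rfl | rfl | rfl
      · exact m0
      · exact Or.inl m1
      · exact m2
      · exact m3) ⟨y1, by simp, m1⟩
  refine ⟨w, hw, lapi.dg _ _ _ _ hl, ?_, ?_, ?_, ?_⟩ <;> exact (hl.mem _).1 (by simp)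

theorem small5 {C : List V} {X : Set V} (hR : Region G C X) {y0 y1 y2 y3 y4 : V}
    (h01 : G.Adj y0 y1) (h12 : G.Adj y1 y2) (h23 : G.Adj y2 y3)
    (h34 : G.Adj y3 y4) (h40 : G.Adj y4 y0) (n02 : ¬ G.Adj y0 y2) (n03 : ¬ G.Adj y0 y3)
    (n13 : ¬ G.Adj y1 y3) (n14 : ¬ G.Adj y1 y4) (n24 : ¬ G.Adj y2 y4) (e02 : y0 ≠ y2)
    (e03 : y0 ≠ y3) (e13 : y1 ≠ y3) (e14 : y1 ≠ y4) (e24 : y2 ≠ y4)
    (m0 : y0 ∈ X ∨ y0 ∈ C) (m1 : y1 ∈ X ∨ y1 ∈ C) (m2 : y2 ∈ X)
    (m3 : y3 ∈ X ∨ y3 ∈ C) (m4 : y4 ∈ X ∨ y4 ∈ C) :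
    ∃ w ∈ X, dg G w = 5 ∧ G.Adj w y0 ∧ G.Adj w y1 ∧ G.Adj w y2 ∧ G.Adj w y3 ∧ G.Adj w y4 := by
  obtain ⟨w, hw, hl⟩ := hR.small [y0, y1, y2, y3, y4]
    (ind5 h01 h12 h23 h34 h40 n02 n03 n13 n14 n24 e02 e03 e13 e14 e24)
    (by simp) (by
      intro x hx
      simp only [List.mem_cons, List.not_mem_nil, or_false] at hx
      rcases hx with rfl | rfl | rfl | rfl | rfl
      · exact m0
      · exact m1
      · exact Or.inl m2
      · exact m3
      · exact m4) ⟨y2, by simp, m2⟩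
  refine ⟨w, hw, lapi.dg _ _ _ _ hl, ?_, ?_, ?_, ?_, ?_⟩ <;> exact (hl.mem _).1 (by simp)

/-! ### labels -/

/-- The data of a realized pattern. -/
structure Rz (G : SimpleGraph V) (C : List V) (X : Set V) (P : Pat) (exc : List (ℕ × ℕ))
    (ψ : ℕ → V) : Prop where
  reg : Region G C X
  wf : P.WF
  re : Realizes G X P.entries ψ
  ex : ∀ q ∈ exc, ψ q.1 ∈ X → dg G (ψ q.1) ≠ q.2

/-- three consecutive labels of a path -/
structure Tr (P : Pat) (x0 x1 x2 : ℕ) : Prop where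
  lt : x1 < P.nI
  m0 : x0 ∈ P.link x1
  m2 : x2 ∈ P.link x1
  nc : ¬ ConsIn (P.link x1) x0 x2
  ne : x0 ≠ x2

namespace Rz

variable {C : List V} {X : Set V} {P : Pat} {exc : List (ℕ × ℕ)} {ψ : ℕ → V}

theorem int (h : Rz G C X P exc ψ) {v : ℕ} (hv : v < P.nI) :
    ψ v ∈ X ∧ IsLink G (ψ v) ((P.link v).map ψ) := by
  have := h.re (v, P.link v) (by
    unfold Pat.entries
    exact List.mem_map.2 ⟨v, List.mem_range.2 hv, rfl⟩)
  exact this

theorem adj (h : Rz G C X P exc ψ) {v a : ℕ} (hv : v < P.nI) (ha : a ∈ P.link v) :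
    G.Adj (ψ v) (ψ a) :=
  ((h.int hv).2.mem _).1 (List.mem_map_of_mem ha)

theorem mem (h : Rz G C X P exc ψ) {v a : ℕ} (hv : v < P.nI) (ha : a ∈ P.link v) :
    ψ a ∈ X ∨ ψ a ∈ C :=
  h.reg.nbr _ (h.int hv).1 _ (h.adj hv ha)

theorem inj (h : Rz G C X P exc ψ) {v a b : ℕ} (hv : v < P.nI) (ha : a ∈ P.link v)
    (hb : b ∈ P.link v) (e : ψ a = ψ b) : a = b :=
  List.inj_on_of_nodup_map (h.int hv).2.nodup ha hb e

theorem adj_iff (h : Rz G C X P exc ψ) {v a b : ℕ} (hv : v < P.nI) (ha : a ∈ P.link v)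
    (hb : b ∈ P.link v) : G.Adj (ψ a) (ψ b) ↔ ConsIn (P.link v) a b := by
  obtain ⟨i, hi, rfl⟩ := List.getElem_of_mem ha
  obtain ⟨j, hj, rfl⟩ := List.getElem_of_mem hb
  have hadj := (h.int hv).2.adj i j (by simpa using hi) (by simpa using hj)
  rw [List.getElem_map, List.getElem_map] at hadj
  simp only [List.length_map] at hadj
  rw [hadj]
  constructor
  · intro hc
    exact ⟨i, j, hi, hj, rfl, rfl, hc⟩
  · rintro ⟨i', j', hi', hj', e1, e2, hc⟩
    have nd := h.wf.nodup v hv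
    rw [(List.Nodup.getElem_inj_iff nd).1 e1, (List.Nodup.getElem_inj_iff nd).1 e2] at hc
    exact hc

theorem label (h : Rz G C X P exc ψ) {v : ℕ} (hv : v < P.nI) {z : V} (hz : G.Adj (ψ v) z) :
    ∃ a ∈ P.link v, ψ a = z := by
  have := ((h.int hv).2.mem z).2 hz
  obtain ⟨a, ha, e⟩ := List.mem_map.1 this
  exact ⟨a, ha, e⟩

/-- a neighbour of ψ v and of ψ a, a in the link of v, is a label consecutive to a -/
theorem label_cons (h : Rz G C X P exc ψ) {v a : ℕ} (hv : v < P.nI) (ha : a ∈ P.link v) {z : V}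
    (hz : G.Adj (ψ v) z) (hza : G.Adj z (ψ a)) : ∃ b, ConsIn (P.link v) b a ∧ ψ b = z := by
  obtain ⟨b, hb, rfl⟩ := h.label hv hz
  exact ⟨b, (h.adj_iff hv hb ha).1 hza, rfl⟩

theorem cons (h : Rz G C X P exc ψ) {v w a : ℕ} (hv : v < P.nI) (hw : w < P.nI)
    (hc : ConsIn (P.link v) w a) : ConsIn (P.link w) v a :=
  h.wf.cons v w a hv hw (consIn_mem hc).1 hc

theorem kadj (h : Rz G C X P exc ψ) {a b : ℕ} (hab : P.K.Adj a b) : G.Adj (ψ a) (ψ b) := by
  obtain ⟨_, v, hv, h'⟩ := hab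
  rcases h' with ⟨rfl, hb⟩ | ⟨rfl, ha⟩ | hc | hc
  · exact h.adj hv hb
  · exact (h.adj hv ha).symm
  · exact (h.adj_iff hv (consIn_mem hc).1 (consIn_mem hc).2).2 hc
  · exact ((h.adj_iff hv (consIn_mem hc).1 (consIn_mem hc).2).2 hc).symm

theorem noexc (h : Rz G C X P exc ψ) {u d : ℕ} (hu : ψ u ∈ X) (hd : dg G (ψ u) = d)
    (he : (u, d) ∈ exc) : False :=
  h.ex _ he hu hd

theorem tr_na (h : Rz G C X P exc ψ) {x0 x1 x2 : ℕ} (t : Tr P x0 x1 x2) :
    ¬ G.Adj (ψ x0) (ψ x2) := fun ha => t.nc ((h.adj_iff t.lt t.m0 t.m2).1 ha)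

theorem tr_ne (h : Rz G C X P exc ψ) {x0 x1 x2 : ℕ} (t : Tr P x0 x1 x2) : ψ x0 ≠ ψ x2 :=
  fun e => t.ne (h.inj t.lt t.m0 t.m2 e)

theorem ne3 (h : Rz G C X P exc ψ) {x0 x1 x2 x3 : ℕ} (t : Tr P x0 x1 x2) (t' : Tr P x1 x2 x3) :
    ψ x0 ≠ ψ x3 := by
  intro e
  apply h.tr_na t
  rw [e]
  exact (h.adj t'.lt t'.m2).symm

/-- if ψ x0 ~ ψ x3 the 4-cycle is the link of a vertex of X -/
theorem core4 (h : Rz G C X P exc ψ) {x0 x1 x2 x3 : ℕ} (t : Tr P x0 x1 x2) (t' : Tr P x1 x2 x3)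
    (ha : G.Adj (ψ x0) (ψ x3)) :
    ∃ u, ConsIn (P.link x1) u x0 ∧ ConsIn (P.link x1) u x2 ∧ ConsIn (P.link x2) u x1 ∧
      ConsIn (P.link x2) u x3 ∧ ψ u ∈ X ∧ dg G (ψ u) = 4 := by
  obtain ⟨w, hw, hd, w0, w1, w2, w3⟩ := small4 h.reg (h.adj t.lt t.m0).symm (h.adj t.lt t.m2)
    (h.adj t'.lt t'.m2) ha.symm (h.tr_na t) (h.tr_na t') (h.tr_ne t) (h.tr_ne t')
    (h.mem t.lt t.m0) (h.int t.lt).1 (h.mem t.lt t.m2) (h.mem t'.lt t'.m2)
  obtain ⟨u, hu, rfl⟩ := h.label_cons t.lt t.m0 w1.symm w0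
  have hum := (consIn_mem hu).1
  have hu2 : ConsIn (P.link x1) u x2 := (h.adj_iff t.lt hum t.m2).1 w2
  have hu1 : ConsIn (P.link x2) u x1 := consIn_symm (h.cons t.lt t'.lt (consIn_symm hu2))
  exact ⟨u, hu, hu2, hu1, (h.adj_iff t'.lt (consIn_mem hu1).1 t'.m2).1 w3, hw, hd⟩

theorem core5 (h : Rz G C X P exc ψ) {x0 x1 x2 x3 x4 : ℕ} (t : Tr P x0 x1 x2)
    (t' : Tr P x1 x2 x3) (t'' : Tr P x2 x3 x4) (ha : G.Adj (ψ x0) (ψ x4))
    (n03 : ¬ G.Adj (ψ x0) (ψ x3)) (n14 : ¬ G.Adj (ψ x1) (ψ x4)) :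
    ∃ u, ConsIn (P.link x1) u x0 ∧ ConsIn (P.link x1) u x2 ∧ ConsIn (P.link x2) u x1 ∧
      ConsIn (P.link x2) u x3 ∧ ConsIn (P.link x3) u x2 ∧ ConsIn (P.link x3) u x4 ∧
      ψ u ∈ X ∧ dg G (ψ u) = 5 := by
  obtain ⟨w, hw, hd, w0, w1, w2, w3, w4⟩ := small5 h.reg (h.adj t.lt t.m0).symm (h.adj t.lt t.m2)
    (h.adj t'.lt t'.m2) (h.adj t''.lt t''.m2) ha.symm (h.tr_na t) n03 (h.tr_na t') n14
    (h.tr_na t'') (h.tr_ne t) (h.ne3 t t') (h.tr_ne t') (h.ne3 t' t'') (h.tr_ne t'')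
    (h.mem t.lt t.m0) (Or.inl (h.int t.lt).1) (h.int t'.lt).1 (h.mem t'.lt t'.m2)
    (h.mem t''.lt t''.m2)
  obtain ⟨u, hu, rfl⟩ := h.label_cons t.lt t.m0 w1.symm w0
  have hum := (consIn_mem hu).1
  have hu2 : ConsIn (P.link x1) u x2 := (h.adj_iff t.lt hum t.m2).1 w2
  have hu1 : ConsIn (P.link x2) u x1 := consIn_symm (h.cons t.lt t'.lt (consIn_symm hu2))
  have hu3 : ConsIn (P.link x2) u x3 := (h.adj_iff t'.lt (consIn_mem hu1).1 t'.m2).1 w3
  have hu3' : ConsIn (P.link x3) u x2 := consIn_symm (h.cons t'.lt t''.lt (consIn_symm hu3))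
  exact ⟨u, hu, hu2, hu1, hu3, hu3', (h.adj_iff t''.lt (consIn_mem hu3').1 t''.m2).1 w4, hw, hd⟩

theorem path3 {P : Pat} {x0 x1 x2 : ℕ} : P.pathB [x0, x1, x2] = true ↔ Tr P x0 x1 x2 := by
  unfold Pat.pathB
  simp only [Bool.and_eq_true, Bool.not_eq_true', memB_iff, Nat.blt_eq]
  rw [← Bool.not_eq_true, ← Bool.not_eq_true, cB_iff, Nat.beq_eq]
  constructor
  · rintro ⟨⟨⟨⟨h1, h2⟩, h3⟩, h4⟩, h5⟩
    exact ⟨h1, h2, h3, fun hc => h4 ⟨h1, hc⟩, h5⟩
  · rintro ⟨h1, h2, h3, h4, h5⟩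
    exact ⟨⟨⟨⟨h1, h2⟩, h3⟩, fun hc => h4 hc.2⟩, h5⟩

theorem path4 {P : Pat} {x0 x1 x2 x3 : ℕ} {t : List ℕ} :
    P.pathB (x0 :: x1 :: x2 :: x3 :: t) = true ↔
      Tr P x0 x1 x2 ∧ P.pathB (x1 :: x2 :: x3 :: t) = true := by
  have e : P.pathB (x0 :: x1 :: x2 :: x3 :: t) =
      (P.pathB [x0, x1, x2] && P.pathB (x1 :: x2 :: x3 :: t)) := rfl
  rw [e, Bool.and_eq_true, path3]

theorem f1 (h : Rz G C X P exc ψ) (p : List ℕ) (hp : P.pathB p = true)
    (hf : P.f1B exc p = true) : ψ (p.getD 0 0) ≠ ψ (p.getD (p.length - 1) 0) := by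
  match p, hp, hf with
  | [x0, x1, x2], hp, _ => exact h.tr_ne (path3.1 hp)
  | [x0, x1, x2, x3], hp, _ =>
    rw [path4, path3] at hp
    exact h.ne3 hp.1 hp.2
  | [x0, x1, x2, x3, x4], hp, hf =>
    rw [path4, path4, path3] at hp
    obtain ⟨t1, t2, t3⟩ := hp
    change ψ x0 ≠ ψ x4
    intro e
    have ha : G.Adj (ψ x0) (ψ x3) := by rw [e]; exact (h.adj t3.lt t3.m2).symm
    obtain ⟨u, c1, c2, c3, c4, hu, hd⟩ := h.core4 t1 t2 ha
    have c5 : ConsIn (P.link x3) u x2 := consIn_symm (h.cons t2.lt t3.lt (consIn_symm c4))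
    have c6 : ConsIn (P.link x3) u x4 := by
      rw [← h.adj_iff t3.lt (consIn_mem c5).1 t3.m2, ← e,
        h.adj_iff t1.lt (consIn_mem c1).1 t1.m0]
      exact c1
    unfold Pat.f1B at hf
    rw [List.all_eq_true] at hf
    have := hf u (consIn_mem c1).1
    simp only [Bool.or_eq_true, Bool.not_eq_true', excB_iff] at this
    rcases this with h1 | h1
    · rw [← Bool.not_eq_true] at h1
      apply h1
      simp only [Bool.and_eq_true, cB_iff]
      exact ⟨⟨⟨⟨⟨⟨t1.lt, c1⟩, ⟨t1.lt, c2⟩⟩, ⟨t2.lt, c3⟩⟩, ⟨t2.lt, c4⟩⟩, ⟨t3.lt, c5⟩⟩, ⟨t3.lt, c6⟩⟩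
    · exact h.noexc hu hd h1
  | [x0, x1, x2, x3, x4, x5], hp, hf =>
    rw [path4, path4, path4, path3] at hp
    obtain ⟨t1, t2, t3, t4⟩ := hp
    change ψ x0 ≠ ψ x5
    intro e
    have ha : G.Adj (ψ x0) (ψ x4) := by rw [e]; exact (h.adj t4.lt t4.m2).symm
    unfold Pat.f1B at hf
    rw [List.all_eq_true] at hf
    by_cases h14 : G.Adj (ψ x1) (ψ x4)
    · obtain ⟨u, c1, c2, c3, c4, hu, hd⟩ := h.core4 t2 t3 h14
      have c5 : ConsIn (P.link x1) u x2 := consIn_symm (h.cons t2.lt t1.lt (consIn_symm c1))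
      have c6 : ConsIn (P.link x4) u x3 := consIn_symm (h.cons t3.lt t4.lt (consIn_symm c4))
      have := hf u (consIn_mem c1).1
      simp only [Bool.or_eq_true, Bool.not_eq_true', Bool.and_eq_true, excB_iff] at this
      rcases this with h1 | h1
      · rw [← Bool.not_eq_true] at h1
        apply h1
        simp only [Bool.and_eq_true, cB_iff]
        exact ⟨⟨⟨⟨⟨⟨t1.lt, c5⟩, ⟨t2.lt, c1⟩⟩, ⟨t2.lt, c2⟩⟩, ⟨t3.lt, c3⟩⟩, ⟨t3.lt, c4⟩⟩, ⟨t4.lt, c6⟩⟩
      · exact h.noexc hu hd h1.1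
    · have n03 : ¬ G.Adj (ψ x0) (ψ x3) := by
        rw [e]
        exact fun h0 => h.tr_na t4 h0.symm
      obtain ⟨u, c1, c2, c3, c4, c5, c6, hu, hd⟩ := h.core5 t1 t2 t3 ha n03 h14
      have c7 : ConsIn (P.link x4) u x3 := consIn_symm (h.cons t3.lt t4.lt (consIn_symm c6))
      have c8 : ConsIn (P.link x4) u x5 := by
        rw [← h.adj_iff t4.lt (consIn_mem c7).1 t4.m2, ← e,
          h.adj_iff t1.lt (consIn_mem c1).1 t1.m0]
        exact c1
      have := hf u (consIn_mem c3).1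
      simp only [Bool.or_eq_true, Bool.not_eq_true', Bool.and_eq_true, excB_iff] at this
      rcases this with h1 | h1
      · rw [← Bool.not_eq_true] at h1
        apply h1
        simp only [Bool.and_eq_true, cB_iff]
        exact ⟨⟨⟨⟨⟨⟨t1.lt, c2⟩, ⟨t2.lt, c3⟩⟩, ⟨t2.lt, c4⟩⟩, ⟨t3.lt, c5⟩⟩, ⟨t3.lt, c6⟩⟩, ⟨t4.lt, c7⟩⟩
      · rcases h1.2 with h2 | h2
        · rw [← Bool.not_eq_true] at h2
          apply h2
          simp only [Bool.and_eq_true, cB_iff]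
          exact ⟨⟨t1.lt, c1⟩, ⟨t4.lt, c8⟩⟩
        · exact h.noexc hu hd h2
  | [], hp, _ => simp [Pat.pathB] at hp
  | [_], hp, _ => simp [Pat.pathB] at hp
  | [_, _], hp, _ => simp [Pat.pathB] at hp
  | _ :: _ :: _ :: _ :: _ :: _ :: _ :: _, _, hf => simp [Pat.f1B] at hf

theorem f2 (h : Rz G C X P exc ψ) (p : List ℕ) (hp : P.pathB p = true)
    (hf : P.f2B exc p = true) : ¬ G.Adj (ψ (p.getD 0 0)) (ψ (p.getD (p.length - 1) 0)) := by
  match p, hp, hf with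
  | [x0, x1, x2], hp, _ => exact h.tr_na (path3.1 hp)
  | [x0, x1, x2, x3], hp, hf =>
    rw [path4, path3] at hp
    obtain ⟨t1, t2⟩ := hp
    change ¬ G.Adj (ψ x0) (ψ x3)
    intro ha
    obtain ⟨u, c1, c2, c3, c4, hu, hd⟩ := h.core4 t1 t2 ha
    unfold Pat.f2B at hf
    rw [List.all_eq_true] at hf
    have := hf u (consIn_mem c1).1
    simp only [Bool.or_eq_true, Bool.not_eq_true', excB_iff] at this
    rcases this with h1 | h1
    · rw [← Bool.not_eq_true] at h1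
      apply h1
      simp only [Bool.and_eq_true, cB_iff]
      exact ⟨⟨⟨⟨t1.lt, c1⟩, ⟨t1.lt, c2⟩⟩, ⟨t2.lt, c3⟩⟩, ⟨t2.lt, c4⟩⟩
    · exact h.noexc hu hd h1
  | [x0, x1, x2, x3, x4], hp, hf =>
    rw [path4, path4, path3] at hp
    obtain ⟨t1, t2, t3⟩ := hp
    change ¬ G.Adj (ψ x0) (ψ x4)
    intro ha
    unfold Pat.f2B at hf
    rw [List.all_eq_true] at hf
    have key : ∀ u, ConsIn (P.link x1) u x2 → ConsIn (P.link x2) u x1 → ConsIn (P.link x2) u x3 →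
        ConsIn (P.link x3) u x2 →
        ((¬ ConsIn (P.link x1) u x0 ∨ (u, 4) ∈ exc) ∧ (¬ ConsIn (P.link x3) u x4 ∨ (u, 4) ∈ exc)) ∧
          (¬ (ConsIn (P.link x1) u x0 ∧ ConsIn (P.link x3) u x4) ∨ (u, 5) ∈ exc) := by
      intro u c1 c2 c3 c4
      have := hf u (consIn_mem c2).1
      simp only [Bool.or_eq_true, Bool.not_eq_true', Bool.and_eq_true, excB_iff] at this
      rcases this with h1 | h1
      · rw [← Bool.not_eq_true] at h1
        exfalso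
        apply h1
        simp only [Bool.and_eq_true, cB_iff]
        exact ⟨⟨⟨⟨t1.lt, c1⟩, ⟨t2.lt, c2⟩⟩, ⟨t2.lt, c3⟩⟩, ⟨t3.lt, c4⟩⟩
      · rw [← Bool.not_eq_true, ← Bool.not_eq_true, ← Bool.not_eq_true] at h1
        simp only [Bool.and_eq_true, cB_iff] at h1
        have l1 := t1.lt
        have l3 := t3.lt
        tauto
    by_cases h03 : G.Adj (ψ x0) (ψ x3)
    · obtain ⟨u, c1, c2, c3, c4, hu, hd⟩ := h.core4 t1 t2 h03
      have c5 : ConsIn (P.link x3) u x2 := consIn_symm (h.cons t2.lt t3.lt (consIn_symm c4))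
      rcases (key u c2 c3 c4 c5).1.1 with h1 | h1
      · exact h1 c1
      · exact h.noexc hu hd h1
    · by_cases h14 : G.Adj (ψ x1) (ψ x4)
      · obtain ⟨u, c1, c2, c3, c4, hu, hd⟩ := h.core4 t2 t3 h14
        have c5 : ConsIn (P.link x1) u x2 := consIn_symm (h.cons t2.lt t1.lt (consIn_symm c1))
        rcases (key u c5 c1 c2 c3).1.2 with h1 | h1
        · exact h1 c4
        · exact h.noexc hu hd h1
      · obtain ⟨u, c1, c2, c3, c4, c5, c6, hu, hd⟩ := h.core5 t1 t2 t3 ha h03 h14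
        rcases (key u c2 c3 c4 c5).2 with h1 | h1
        · exact h1 ⟨c1, c6⟩
        · exact h.noexc hu hd h1
  | [], hp, _ => simp [Pat.pathB] at hp
  | [_], hp, _ => simp [Pat.pathB] at hp
  | [_, _], hp, _ => simp [Pat.pathB] at hp
  | _ :: _ :: _ :: _ :: _ :: _ :: _, _, hf => simp [Pat.f2B] at hf

theorem klink (h : Rz G C X P exc ψ) {v a b : ℕ} (hv : v < P.nI) (hc : ConsIn (P.link v) a b) :
    P.K.Adj a b := by
  refine ⟨?_, v, hv, Or.inr (Or.inr (Or.inl hc))⟩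
  rintro rfl
  exact G.loopless.irrefl _ ((h.adj_iff hv (consIn_mem hc).1 (consIn_mem hc).2).2 hc)

theorem kstar (h : Rz G C X P exc ψ) {v a : ℕ} (hv : v < P.nI) (ha : a ∈ P.link v) :
    P.K.Adj v a := by
  refine ⟨?_, v, hv, Or.inl ⟨rfl, ha⟩⟩
  rintro rfl
  exact h.wf.irrefl _ hv ha

theorem f3two (h : Rz G C X P exc ψ) {x t y : ℕ} (tr : Tr P x t y)
    (hf : ∀ u, ConsIn (P.link t) u x → ConsIn (P.link t) u y → u < P.nI ∨ (u, 4) ∈ exc) (z : V)
    (hzx : G.Adj z (ψ x)) (hzy : G.Adj z (ψ y)) :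
    ∃ a, a < P.N ∧ ψ a = z ∧ P.K.Adj a x ∧ P.K.Adj a y := by
  by_cases hzt : z = ψ t
  · exact ⟨t, lt_of_lt_of_le tr.lt h.wf.le, hzt.symm, h.kstar tr.lt tr.m0, h.kstar tr.lt tr.m2⟩
  by_cases hza : G.Adj (ψ t) z
  · obtain ⟨b, hb, rfl⟩ := h.label_cons tr.lt tr.m0 hza hzx
    have hbm := (consIn_mem hb).1
    exact ⟨b, h.wf.lt t tr.lt b hbm, rfl, h.klink tr.lt hb,
      h.klink tr.lt ((h.adj_iff tr.lt hbm tr.m2).1 hzy)⟩
  by_cases hzXC : z ∈ X ∨ z ∈ C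
  · obtain ⟨w, hw, hd, w0, w1, w2, w3⟩ := small4 h.reg (h.adj tr.lt tr.m0).symm (h.adj tr.lt tr.m2)
      hzy.symm hzx (h.tr_na tr) hza (h.tr_ne tr) (Ne.symm hzt) (h.mem tr.lt tr.m0)
      (h.int tr.lt).1 (h.mem tr.lt tr.m2) hzXC
    obtain ⟨u, hu, rfl⟩ := h.label_cons tr.lt tr.m0 w1.symm w0
    have hum := (consIn_mem hu).1
    have huy : ConsIn (P.link t) u y := (h.adj_iff tr.lt hum tr.m2).1 w2
    rcases hf u hu huy with h1 | h1
    · have hux : ConsIn (P.link u) t x := h.cons tr.lt h1 hu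
      have huy' : ConsIn (P.link u) t y := h.cons tr.lt h1 huy
      obtain ⟨a, ha, rfl⟩ := h.label_cons h1 (consIn_mem hux).2 w3 hzx
      have ham := (consIn_mem ha).1
      exact ⟨a, h.wf.lt u h1 a ham, rfl, h.klink h1 ha,
        h.klink h1 ((h.adj_iff h1 ham (consIn_mem huy').2).1 hzy)⟩
    · exact (h.noexc hw hd h1).elim
  · exfalso
    have hx : ψ x ∈ C := by
      rcases h.mem tr.lt tr.m0 with h1 | h1
      · exact absurd (h.reg.nbr _ h1 _ hzx.symm) hzXC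
      · exact h1
    have hy : ψ y ∈ C := by
      rcases h.mem tr.lt tr.m2 with h1 | h1
      · exact absurd (h.reg.nbr _ h1 _ hzy.symm) hzXC
      · exact h1
    exact h.reg.common _ hx _ hy (h.tr_ne tr) (h.tr_na tr) _ (h.int tr.lt).1
      ⟨h.adj tr.lt tr.m0, h.adj tr.lt tr.m2⟩

/-- one half of the case of paths of length three -/
theorem f3half (h : Rz G C X P exc ψ) {x t s y : ℕ} (t1 : Tr P x t s) (t2 : Tr P t s y)
    (hno : ∀ a, a < P.N → ¬ (P.K.Adj a x ∧ P.K.Adj a y))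
    (hf : ∀ a u, ConsIn (P.link t) a x → ConsIn (P.link t) u a → ConsIn (P.link t) u s →
      ConsIn (P.link s) u t → ConsIn (P.link s) u y → u < P.nI ∨ (u, 4) ∈ exc) (z : V)
    (hzXC : z ∈ X ∨ z ∈ C) (hzx : G.Adj z (ψ x)) (hzy : G.Adj z (ψ y)) (hzt : G.Adj z (ψ t))
    (hzs : ¬ G.Adj z (ψ s)) (hne : z ≠ ψ s) : False := by
  obtain ⟨a, ha, rfl⟩ := h.label_cons t1.lt t1.m0 hzt.symm hzx
  obtain ⟨w, hw, hd, w0, w1, w2, w3⟩ := small4 h.reg hzt (h.adj t1.lt t1.m2)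
    (h.adj t2.lt t2.m2) hzy.symm hzs (h.tr_na t2) hne (h.tr_ne t2) hzXC
    (h.int t1.lt).1 (h.mem t1.lt t1.m2) (h.mem t2.lt t2.m2)
  have ham := (consIn_mem ha).1
  obtain ⟨u, hu, rfl⟩ := h.label_cons t1.lt ham w1.symm w0
  have hum := (consIn_mem hu).1
  have hus : ConsIn (P.link t) u s := (h.adj_iff t1.lt hum t1.m2).1 w2
  have hut : ConsIn (P.link s) u t := consIn_symm (h.cons t1.lt t2.lt (consIn_symm hus))
  have huy : ConsIn (P.link s) u y := (h.adj_iff t2.lt (consIn_mem hut).1 t2.m2).1 w3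
  rcases hf a u ha hu hus hut huy with h1 | h1
  · have h2 : ConsIn (P.link u) t a := h.cons t1.lt h1 hu
    have h3 : ConsIn (P.link u) s y := h.cons t2.lt h1 huy
    exact hno a (h.wf.lt t t1.lt a ham) ⟨h.klink t1.lt ha,
      h.klink h1 ((h.adj_iff h1 (consIn_mem h2).2 (consIn_mem h3).2).1 hzy)⟩
  · exact h.noexc hw hd h1

theorem f3three (h : Rz G C X P exc ψ) {x t s y : ℕ} (t1 : Tr P x t s) (t2 : Tr P t s y)
    (hna : ¬ G.Adj (ψ x) (ψ y))
    (hno : ∀ a, a < P.N → ¬ (P.K.Adj a x ∧ P.K.Adj a y))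
    (hf : ∀ a u, ConsIn (P.link t) a x → ConsIn (P.link t) u a → ConsIn (P.link t) u s →
      ConsIn (P.link s) u t → ConsIn (P.link s) u y → u < P.nI ∨ (u, 4) ∈ exc)
    (hf' : ∀ a u, ConsIn (P.link s) a y → ConsIn (P.link s) u a → ConsIn (P.link s) u t →
      ConsIn (P.link t) u s → ConsIn (P.link t) u x → u < P.nI ∨ (u, 4) ∈ exc) (z : V)
    (hzXC : z ∈ X ∨ z ∈ C) (hzx : G.Adj z (ψ x)) (hzy : G.Adj z (ψ y)) : False := by
  have t1' : Tr P s t x := ⟨t1.lt, t1.m2, t1.m0, fun hc => t1.nc (consIn_symm hc), t1.ne.symm⟩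
  have t2' : Tr P y s t := ⟨t2.lt, t2.m2, t2.m0, fun hc => t2.nc (consIn_symm hc), t2.ne.symm⟩
  have nzt : z ≠ ψ t := by
    rintro rfl
    exact h.tr_na t2 hzy
  have nzs : z ≠ ψ s := by
    rintro rfl
    exact h.tr_na t1' hzx
  by_cases hzt : G.Adj z (ψ t)
  · by_cases hzs : G.Adj z (ψ s)
    · obtain ⟨a, ha, rfl⟩ := h.label_cons t1.lt t1.m0 hzt.symm hzx
      have ham := (consIn_mem ha).1
      have h1 : ConsIn (P.link t) a s := (h.adj_iff t1.lt ham t1.m2).1 hzs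
      have h2 : ConsIn (P.link s) a t := consIn_symm (h.cons t1.lt t2.lt (consIn_symm h1))
      exact hno a (h.wf.lt t t1.lt a ham) ⟨h.klink t1.lt ha,
        h.klink t2.lt ((h.adj_iff t2.lt (consIn_mem h2).1 t2.m2).1 hzy)⟩
    · exact h.f3half t1 t2 hno hf z hzXC hzx hzy hzt hzs nzs
  · by_cases hzs : G.Adj z (ψ s)
    · exact h.f3half t2' t1' (fun a ha hc => hno a ha ⟨hc.2, hc.1⟩) hf' z hzXC hzy hzx hzs hzt nzt
    · obtain ⟨w, _, _, _, w1, w2, w3, w4⟩ := small5 h.reg hzx (h.adj t1.lt t1.m0).symm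
        (h.adj t1.lt t1.m2) (h.adj t2.lt t2.m2) hzy.symm hzt hzs (h.tr_na t1) hna (h.tr_na t2)
        nzt nzs (h.tr_ne t1) (h.ne3 t1 t2) (h.tr_ne t2) hzXC (h.mem t1.lt t1.m0)
        (h.int t1.lt).1 (h.mem t1.lt t1.m2) (h.mem t2.lt t2.m2)
      obtain ⟨u, hu, rfl⟩ := h.label_cons t1.lt t1.m0 w2.symm w1
      have hum := (consIn_mem hu).1
      have hus : ConsIn (P.link t) u s := (h.adj_iff t1.lt hum t1.m2).1 w3
      have hut : ConsIn (P.link s) u t := consIn_symm (h.cons t1.lt t2.lt (consIn_symm hus))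
      exact hno u (h.wf.lt t t1.lt u hum) ⟨h.klink t1.lt hu,
        h.klink t2.lt ((h.adj_iff t2.lt (consIn_mem hut).1 t2.m2).1 w4)⟩

/-- nonadjacent vertices of C have a common neighbour in C -/
theorem C_common (hR : Region G C X) {a b : V} (ha : a ∈ C) (hb : b ∈ C) (hne : a ≠ b)
    (hna : ¬ G.Adj a b) : ∃ c ∈ C, G.Adj c a ∧ G.Adj c b := by
  obtain ⟨i, hi, rfl⟩ := List.getElem_of_mem ha
  obtain ⟨j, hj, rfl⟩ := List.getElem_of_mem hb
  have hij : i ≠ j := by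
    rintro rfl
    exact hne rfl
  rw [hR.cyc.adj] at hna
  have h4 := hR.cyc.len
  have h5 := hR.len
  have key : ∀ n, 4 ≤ n → n ≤ 5 → ∀ i, i < n → ∀ j, j < n → i ≠ j → ¬ CycAdj n i j →
      ∃ k, k < n ∧ CycAdj n k i ∧ CycAdj n k j := by
    intro n hn4 hn5 i hi j hj
    have k4 : ∀ i j : Fin 4, i.val ≠ j.val → ¬ (j.val = (i.val + 1) % 4 ∨ i.val = (j.val + 1) % 4) →
      ∃ k : Fin 4, (i.val = (k.val + 1) % 4 ∨ k.val = (i.val + 1) % 4) ∧
        (j.val = (k.val + 1) % 4 ∨ k.val = (j.val + 1) % 4) := by decide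
    have k5 : ∀ i j : Fin 5, i.val ≠ j.val → ¬ (j.val = (i.val + 1) % 5 ∨ i.val = (j.val + 1) % 5) →
      ∃ k : Fin 5, (i.val = (k.val + 1) % 5 ∨ k.val = (i.val + 1) % 5) ∧
        (j.val = (k.val + 1) % 5 ∨ k.val = (j.val + 1) % 5) := by decide
    have hn : n = 4 ∨ n = 5 := by omega
    unfold CycAdj
    rcases hn with rfl | rfl
    · intro h1 h2
      obtain ⟨k, hk⟩ := k4 ⟨i, hi⟩ ⟨j, hj⟩ h1 h2
      exact ⟨k, k.2, hk⟩
    · intro h1 h2
      obtain ⟨k, hk⟩ := k5 ⟨i, hi⟩ ⟨j, hj⟩ h1 h2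
      exact ⟨k, k.2, hk⟩
  obtain ⟨k, hk, hki, hkj⟩ := key C.length h4 h5 i hi j hj hij hna
  exact ⟨C[k], List.getElem_mem _, (hR.cyc.adj k i hk hi).2 hki, (hR.cyc.adj k j hk hj).2 hkj⟩

theorem f3 (h : Rz G C X P exc ψ) (p : List ℕ) (hp : P.pathB p = true)
    (hf2 : P.f2B exc p = true) (hf : P.f3B exc p = true) (z : V)
    (hzx : G.Adj z (ψ (p.getD 0 0))) (hzy : G.Adj z (ψ (p.getD (p.length - 1) 0))) :
    ∃ a, a < P.N ∧ ψ a = z ∧ P.K.Adj a (p.getD 0 0) ∧ P.K.Adj a (p.getD (p.length - 1) 0) := by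
  have hna := h.f2 p hp hf2
  match p, hp, hf, hzx, hzy, hna with
  | [x, t, y], hp, hf, hzx, hzy, _ =>
    have tr := path3.1 hp
    change ∃ a, a < P.N ∧ ψ a = z ∧ P.K.Adj a x ∧ P.K.Adj a y
    refine h.f3two tr (fun u hux huy => ?_) z hzx hzy
    unfold Pat.f3B at hf
    rw [List.all_eq_true] at hf
    have := hf u (consIn_mem hux).1
    simp only [Bool.or_eq_true, Bool.not_eq_true', excB_iff, Nat.blt_eq] at this
    rcases this with (h1 | h1) | h1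
    · rw [← Bool.not_eq_true] at h1
      exfalso
      apply h1
      simp only [Bool.and_eq_true, cB_iff]
      exact ⟨⟨tr.lt, hux⟩, ⟨tr.lt, huy⟩⟩
    · exact Or.inl h1
    · exact Or.inr h1
  | [x, t, s, y], hp, hf, hzx, hzy, hna =>
    rw [path4, path3] at hp
    obtain ⟨t1, t2⟩ := hp
    change ∃ a, a < P.N ∧ ψ a = z ∧ P.K.Adj a x ∧ P.K.Adj a y
    change ¬ G.Adj (ψ x) (ψ y) at hna
    change G.Adj z (ψ x) at hzx
    change G.Adj z (ψ y) at hzy
    exfalso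
    unfold Pat.f3B at hf
    simp only [Bool.and_eq_true, Bool.not_eq_true'] at hf
    obtain ⟨⟨hf1, hf2⟩, hf3⟩ := hf
    have hno : ∀ a, a < P.N → ¬ (P.K.Adj a x ∧ P.K.Adj a y) := by
      intro a ha hc
      rw [← Bool.not_eq_true, List.any_eq_true] at hf1
      apply hf1
      refine ⟨a, List.mem_range.2 ha, ?_⟩
      rw [Bool.and_eq_true, kB_iff, kB_iff]
      exact hc
    have key : ∀ x t s y, P.f3halfB exc x t s y = true → t < P.nI → s < P.nI →
        ∀ a u, ConsIn (P.link t) a x → ConsIn (P.link t) u a → ConsIn (P.link t) u s →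
        ConsIn (P.link s) u t → ConsIn (P.link s) u y → u < P.nI ∨ (u, 4) ∈ exc := by
      intro x t s y hf ht hs a u c1 c2 c3 c4 c5
      unfold Pat.f3halfB at hf
      rw [List.all_eq_true] at hf
      have h1 := hf a (consIn_mem c1).1
      rw [Bool.or_eq_true, Bool.not_eq_true', ← Bool.not_eq_true, cB_iff] at h1
      rcases h1 with h1 | h1
      · exact absurd ⟨ht, c1⟩ h1
      · rw [List.all_eq_true] at h1
        have h2 := h1 u (consIn_mem c2).1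
        simp only [Bool.or_eq_true, Bool.not_eq_true', excB_iff, Nat.blt_eq] at h2
        rcases h2 with (h2 | h2) | h2
        · rw [← Bool.not_eq_true] at h2
          exfalso
          apply h2
          simp only [Bool.and_eq_true, cB_iff]
          exact ⟨⟨⟨⟨ht, c2⟩, ⟨ht, c3⟩⟩, ⟨hs, c4⟩⟩, ⟨hs, c5⟩⟩
        · exact Or.inl h2
        · exact Or.inr h2
    have main := h.f3three t1 t2 hna hno (key x t s y hf2 t1.lt t2.lt)
      (key y s t x hf3 t2.lt t1.lt)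
    by_cases hzXC : z ∈ X ∨ z ∈ C
    · exact main z hzXC hzx hzy
    · have hx : ψ x ∈ C := by
        rcases h.mem t1.lt t1.m0 with h1 | h1
        · exact absurd (h.reg.nbr _ h1 _ hzx.symm) hzXC
        · exact h1
      have hy : ψ y ∈ C := by
        rcases h.mem t2.lt t2.m2 with h1 | h1
        · exact absurd (h.reg.nbr _ h1 _ hzy.symm) hzXC
        · exact h1
      obtain ⟨z', hz', e1, e2⟩ := C_common h.reg hx hy (h.ne3 t1 t2) hna
      exact main z' (Or.inr hz') e1 e2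
  | [], hp, _, _, _, _ => simp [Pat.pathB] at hp
  | [_], hp, _, _, _, _ => simp [Pat.pathB] at hp
  | [_, _], hp, _, _, _, _ => simp [Pat.pathB] at hp
  | _ :: _ :: _ :: _ :: _ :: _, _, hf, _, _, _ => simp [Pat.f3B] at hf

end Rz

/-- the path of a pair -/
theorem pair_path {P : Pat} {exc : List (ℕ × ℕ)} {paths : List (List ℕ)}
    (hg : P.geoB exc paths = true) {x y : ℕ} (hx : x < P.N) (hy : y < P.N) (hxy : x < y)
    (hK : ¬ P.K.Adj x y) : ∃ p, P.pairB exc x y p = true := by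
  unfold Pat.geoB at hg
  rw [Bool.and_eq_true, Nat.beq_eq, List.all_eq_true] at hg
  obtain ⟨hlen, hall⟩ := hg
  have hmem : (x, y) ∈ P.nonPairs := by
    unfold Pat.nonPairs
    rw [List.mem_flatMap]
    refine ⟨x, List.mem_range.2 hx, ?_⟩
    rw [List.mem_map]
    refine ⟨y, ?_, rfl⟩
    rw [List.mem_filter]
    refine ⟨List.mem_range.2 hy, ?_⟩
    rw [Bool.and_eq_true, Nat.blt_eq, Bool.not_eq_true', ← Bool.not_eq_true, kB_iff]
    exact ⟨hxy, hK⟩
  obtain ⟨i, hi, e⟩ := List.getElem_of_mem hmem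
  have hi' : i < (P.nonPairs.zip paths).length := by
    rw [List.length_zip]; omega
  have h1 := hall _ (List.getElem_mem hi')
  rw [List.getElem_zip] at h1
  simp only [e] at h1
  exact ⟨_, h1⟩

theorem geo : GeoStatement := by
  intro V G C X hM hR P exc paths ψ hwf hg hre hex
  have h : Rz G C X P exc ψ := ⟨hR, hwf, hre, hex⟩
  have hpair : ∀ x y, x < P.N → y < P.N → x < y → ¬ P.K.Adj x y → ∃ p, P.pathB p = true ∧
      P.f1B exc p = true ∧ p.getD 0 0 = x ∧ p.getD (p.length - 1) 0 = y ∧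
      (P.IsRing x → P.IsRing y →
        ((P.block x = P.block y ∨ P.Q.Adj (P.block x) (P.block y) ∨ (P.Merged x ∧ P.Merged y)) →
          P.f2B exc p = true) ∧ (P.block x = P.block y → P.f3B exc p = true)) := by
    intro x y hx hy hxy hK
    obtain ⟨p, hp⟩ := pair_path hg hx hy hxy hK
    unfold Pat.pairB at hp
    simp only [Bool.and_eq_true, Nat.beq_eq] at hp
    obtain ⟨⟨⟨⟨h1, h2⟩, h3⟩, h4⟩, h5⟩ := hp
    refine ⟨p, h3, h4, h1, h2, fun rx ry => ?_⟩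
    simp only [Bool.or_eq_true, Bool.not_eq_true', Bool.and_eq_true] at h5
    rcases h5 with h5 | h5
    · rw [← Bool.not_eq_true] at h5
      exfalso
      apply h5
      rw [Bool.and_eq_true, ringB_iff, ringB_iff]
      exact ⟨rx, ry⟩
    obtain ⟨h6, h7⟩ := h5
    constructor
    · intro hc
      rcases h6 with h6 | h6
      · rw [← Bool.not_eq_true] at h6
        exfalso
        apply h6
        simp only [Bool.or_eq_true, Bool.and_eq_true, mergedB_iff, Nat.beq_eq]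
        rcases hc with hc | hc | hc
        · exact Or.inl (Or.inl hc)
        · left; right
          obtain ⟨hne, a, b, hab, ha, hb⟩ := hc
          have hlt : ∀ a b, P.K.Adj a b → a < P.N := by
            rintro a b ⟨_, v, hv, h'⟩
            rcases h' with ⟨rfl, _⟩ | ⟨rfl, h'⟩ | h' | h'
            · exact lt_of_lt_of_le hv hwf.le
            · exact hwf.lt _ hv _ h'
            · exact hwf.lt _ hv _ (consIn_mem h').1
            · exact hwf.lt _ hv _ (consIn_mem h').2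
          unfold Pat.qB
          rw [Bool.and_eq_true, Bool.not_eq_true', ← Bool.not_eq_true, Nat.beq_eq]
          refine ⟨hne, ?_⟩
          rw [List.any_eq_true]
          refine ⟨a, List.mem_range.2 (hlt a b hab), ?_⟩
          rw [Bool.and_eq_true, Nat.beq_eq]
          refine ⟨ha, ?_⟩
          rw [List.any_eq_true]
          refine ⟨b, List.mem_range.2 (hlt b a hab.symm), ?_⟩
          rw [Bool.and_eq_true, Nat.beq_eq, kB_iff]
          exact ⟨hb, hab⟩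
        · exact Or.inr hc
      · exact h6
    · intro hc
      rcases h7 with h7 | h7
      · rw [← Bool.not_eq_true, Nat.beq_eq] at h7
        exact absurd hc h7
      · exact h7
  refine ⟨fun v hv => (h.int hv).2, ?_, ?_, ?_⟩
  · -- injectivity
    have aux : ∀ a b, a < P.N → b < P.N → a < b → ψ a ≠ ψ b := by
      intro a b ha hb hab
      by_cases hK : P.K.Adj a b
      · exact (h.kadj hK).ne
      · obtain ⟨p, h1, h2, h3, h4, _⟩ := hpair a b ha hb hab hK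
        have := h.f1 p h1 h2
        rwa [h3, h4] at this
    intro a b ha hb e
    by_contra hne
    rcases Nat.lt_or_gt_of_ne hne with hlt | hlt
    · exact aux a b ha hb hlt e
    · exact aux b a hb ha hlt e.symm
  · -- nonadjacency
    have aux : ∀ r r', P.IsRing r → P.IsRing r' → r < r' → ¬ P.K.Adj r r' →
        (P.block r = P.block r' ∨ P.Q.Adj (P.block r) (P.block r') ∨
          (P.Merged r ∧ P.Merged r')) → ¬ G.Adj (ψ r) (ψ r') := by
      intro r r' hr hr' hlt hK hc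
      obtain ⟨p, h1, _, h3, h4, h5⟩ := hpair r r' hr.2 hr'.2 hlt hK
      have := h.f2 p h1 ((h5 hr hr').1 hc)
      rwa [h3, h4] at this
    intro r r' hr hr' hne hK hc
    rcases Nat.lt_or_gt_of_ne hne with hlt | hlt
    · exact aux r r' hr hr' hlt hK hc
    · intro ha
      refine aux r' r hr' hr hlt (fun hk => hK hk.symm) ?_ ha.symm
      rcases hc with hc | hc | hc
      · exact Or.inl hc.symm
      · exact Or.inr (Or.inl hc.symm)
      · exact Or.inr (Or.inr ⟨hc.2, hc.1⟩)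
  · -- common neighbours
    have aux : ∀ r r', P.IsRing r → P.IsRing r' → r < r' → ¬ P.K.Adj r r' →
        P.block r = P.block r' → ∀ z : V, G.Adj z (ψ r) → G.Adj z (ψ r') →
          ∃ a, a < P.N ∧ ψ a = z ∧ P.K.Adj a r ∧ P.K.Adj a r' := by
      intro r r' hr hr' hlt hK hc z hz hz'
      obtain ⟨p, h1, _, h3, h4, h5⟩ := hpair r r' hr.2 hr'.2 hlt hK
      have := h.f3 p h1 ((h5 hr hr').1 (Or.inl hc)) ((h5 hr hr').2 hc) z (by rw [h3]; exact hz)
        (by rw [h4]; exact hz')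
      rwa [h3, h4] at this
    intro r r' hr hr' hne hK hc z hz hz'
    rcases Nat.lt_or_gt_of_ne hne with hlt | hlt
    · exact aux r r' hr hr' hlt hK hc z hz hz'
    · obtain ⟨a, h1, h2, h3, h4⟩ := aux r' r hr' hr hlt (fun hk => hK hk.symm) hc.symm z hz' hz
      exact ⟨a, h1, h2, h4, h3⟩

end StrongArb.H22
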