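import Pool.Agent.Lib.MP_39c2b7_co.Interfaces

/-!
Module LAPI of project SA (MP_39c2b7_co): basic facts on links.
-/

namespace StrongArb.H22

open StrongArb

theorem mod_small {n x : ℕ} (h : x < 2 * n) : x % n = if x < n then x else x - n := by
  split_ifs with h1
  · exact Nat.mod_eq_of_lt h1
  · rw [Nat.mod_eq_sub_mod (by omega), Nat.mod_eq_of_lt (by omega)]

theorem cycAdj_iff {n i j : ℕ} (hi : i < n) (hj : j < n) :
    CycAdj n i j ↔ (j = i + 1 ∨ i = j + 1 ∨ (i + 1 = n ∧ j = 0) ∨ (j + 1 = n ∧ i = 0)) := by
  unfold CycAdj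
  rw [mod_small (n := n) (x := i + 1) (by omega), mod_small (n := n) (x := j + 1) (by omega)]
  split_ifs <;> omega

theorem cycAdj_rotate {n i j k : ℕ} (hi : i < n) (hj : j < n) :
    CycAdj n ((i + k) % n) ((j + k) % n) ↔ CycAdj n i j := by
  have hn : 0 < n := by omega
  have e1 : (i + k) % n = (i + k % n) % n := by rw [Nat.add_mod, Nat.mod_eq_of_lt hi]
  have e2 : (j + k) % n = (j + k % n) % n := by rw [Nat.add_mod, Nat.mod_eq_of_lt hj]
  have hk : k % n < n := Nat.mod_lt _ hn
  rw [e1, e2]
  generalize k % n = r at hk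
  rw [cycAdj_iff (Nat.mod_lt _ hn) (Nat.mod_lt _ hn), cycAdj_iff hi hj]
  rw [mod_small (n := n) (x := i + r) (by omega), mod_small (n := n) (x := j + r) (by omega)]
  split_ifs <;> omega

theorem cycAdj_reverse {n i j : ℕ} (hi : i < n) (hj : j < n) :
    CycAdj n (n - 1 - i) (n - 1 - j) ↔ CycAdj n i j := by
  rw [cycAdj_iff (by omega) (by omega), cycAdj_iff hi hj]
  omega

theorem cycAdj_comm {n i j : ℕ} : CycAdj n i j ↔ CycAdj n j i := by
  unfold CycAdj
  exact or_comm

variable {V : Type} {G : SimpleGraph V}

theorem indCycle_rotate {l : List V} (n : ℕ) (h : IsIndCycle G l) : IsIndCycle G (l.rotate n) where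
  nodup := List.nodup_rotate.2 h.nodup
  len := by rw [List.length_rotate]; exact h.len
  adj := by
    intro i j hi hj
    rw [List.length_rotate] at hi hj
    rw [List.getElem_rotate, List.getElem_rotate, h.adj, List.length_rotate]
    exact cycAdj_rotate hi hj

theorem indCycle_reverse {l : List V} (h : IsIndCycle G l) : IsIndCycle G l.reverse where
  nodup := List.nodup_reverse.2 h.nodup
  len := by rw [List.length_reverse]; exact h.len
  adj := by
    intro i j hi hj
    rw [List.length_reverse] at hi hj
    rw [List.getElem_reverse, List.getElem_reverse, h.adj, List.length_reverse]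
    exact cycAdj_reverse hi hj

theorem list_two {α : Type*} (L : List α) (h : 2 ≤ L.length) :
    ∃ l', L = (L[0]'(by omega)) :: (L[1]'(by omega)) :: l' := by
  match L, h with
  | a :: b :: l', _ => exact ⟨l', rfl⟩

/-- positions of adjacent elements: after a rotation or reflection they are the first two -/
theorem indCycle_first {l : List V} (h : IsIndCycle G l) {a b : V} (ha : a ∈ l) (hb : b ∈ l)
    (hab : G.Adj a b) : ∃ l', IsIndCycle G (a :: b :: l') ∧ l'.length + 2 = l.length ∧
      ∀ x, x ∈ (a :: b :: l') ↔ x ∈ l := by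
  have hlen := h.len
  -- auxiliary: consecutive positions
  have aux : ∀ (m : List V), IsIndCycle G m → m.length = l.length → (∀ x, x ∈ m ↔ x ∈ l) →
      ∀ i (hi : i < m.length), m[i] = a → m[(i + 1) % m.length]'(Nat.mod_lt _ (by omega)) = b →
      ∃ l', IsIndCycle G (a :: b :: l') ∧ l'.length + 2 = l.length ∧
        ∀ x, x ∈ (a :: b :: l') ↔ x ∈ l := by
    intro m hm hml hmem i hi h1 h2
    have hr := indCycle_rotate i hm
    have hrl : (m.rotate i).length = l.length := by rw [List.length_rotate, hml]
    have e0 : (m.rotate i)[0]'(by omega) = a := by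
      rw [List.getElem_rotate]
      have : (0 + i) % m.length = i := by rw [zero_add, Nat.mod_eq_of_lt hi]
      simp only [this, h1]
    have e1 : (m.rotate i)[1]'(by omega) = b := by
      rw [List.getElem_rotate]
      have : (1 + i) % m.length = (i + 1) % m.length := by rw [add_comm]
      simp only [this, h2]
    have hmr : ∀ x, x ∈ m.rotate i ↔ x ∈ l := by
      intro x
      rw [List.mem_rotate, hmem]
    obtain ⟨l', hl'⟩ := list_two (m.rotate i) (by omega)
    rw [e0, e1] at hl'
    rw [hl'] at hr hrl hmr
    exact ⟨l', hr, by simpa using hrl, hmr⟩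
  obtain ⟨i, hi, rfl⟩ := List.getElem_of_mem ha
  obtain ⟨j, hj, rfl⟩ := List.getElem_of_mem hb
  rw [h.adj] at hab
  have hab' := hab
  rw [cycAdj_iff hi hj] at hab'
  rcases hab with h1 | h1
  · refine aux l h rfl (fun x => Iff.rfl) i hi rfl ?_
    simp only [← h1]
  · have hr := indCycle_reverse h
    have hrl : l.reverse.length = l.length := List.length_reverse
    refine aux l.reverse hr hrl (fun x => List.mem_reverse) (l.length - 1 - i) (by omega) ?_ ?_
    · rw [List.getElem_reverse]
      have : l.length - 1 - (l.length - 1 - i) = i := by omega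
      simp only [this]
    · rw [List.getElem_reverse]
      have : l.length - 1 - (l.length - 1 - i + 1) % l.reverse.length = j := by
        rw [hrl, mod_small (n := l.length) (by omega)]
        rw [mod_small (n := l.length) (x := j + 1) (by omega)] at h1
        split_ifs at h1 ⊢ <;> omega
      simp only [this]

theorem link_closed {v : V} {l m : List V} (hl : IsLink G v l) (hm : m.Nodup) (h3 : 3 ≤ m.length)
    (hadj : ∀ x ∈ m, G.Adj v x)
    (hcyc : ∀ i, ∀ (h : i < m.length),
      G.Adj (m[i]) (m[(i + 1) % m.length]'(Nat.mod_lt _ (by omega)))) : IsLink G v m := by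
  have h01 : G.Adj (m[0]'(by omega)) (m[1]'(by omega)) := by
    have := hcyc 0 (by omega)
    have e : (0 + 1) % m.length = 1 := Nat.mod_eq_of_lt (by omega)
    simpa only [e] using this
  obtain ⟨l', hl', hlen, hmem⟩ := indCycle_first hl.toIsIndCycle
    ((hl.mem _).2 (hadj (m[0]'(by omega)) (List.getElem_mem _)))
    ((hl.mem _).2 (hadj (m[1]'(by omega)) (List.getElem_mem _))) h01
  set L : List V := (m[0]'(by omega)) :: (m[1]'(by omega)) :: l' with hL
  have hLlink : IsLink G v L := ⟨hl', fun x => by rw [hmem, hl.mem]⟩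
  have hLlen := hLlink.len
  have hmL : ∀ x ∈ m, x ∈ L := fun x hx => (hLlink.mem x).2 (hadj x hx)
  -- the positions agree
  have key : ∀ i, ∀ (h : i + 1 < m.length), ∃ (h' : i + 1 < L.length),
      m[i]'(by omega) = L[i]'(by omega) ∧ m[i + 1] = L[i + 1] := by
    intro i
    induction i with
    | zero =>
      intro h
      exact ⟨by omega, rfl, rfl⟩
    | succ i ih =>
      intro h
      obtain ⟨h', e1, e2⟩ := ih (by omega)
      have ha := hcyc (i + 1) (by omega)
      have e3 : (i + 1 + 1) % m.length = i + 2 := Nat.mod_eq_of_lt (by omega)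
      simp only [e3] at ha
      obtain ⟨k, hk, hke⟩ := List.getElem_of_mem (hmL (m[i + 2]'(by omega)) (List.getElem_mem _))
      rw [e2, ← hke, hLlink.adj, cycAdj_iff h' hk] at ha
      have hki : k ≠ i := by
        rintro rfl
        rw [← e1] at hke
        have := (List.Nodup.getElem_inj_iff hm).1 hke
        omega
      have hk0 : k ≠ 0 ∨ i = 0 := by
        by_cases hk0 : k = 0
        · subst hk0
          have e4 : L[0]'(by omega) = m[0]'(by omega) := rfl
          rw [e4] at hke
          have := (List.Nodup.getElem_inj_iff hm).1 hke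
          omega
        · exact Or.inl hk0
      have hk2 : k = i + 2 := by omega
      subst hk2
      exact ⟨hk, e2, hke.symm⟩
  -- the last position
  have hlast := hcyc (m.length - 1) (by omega)
  have e5 : (m.length - 1 + 1) % m.length = 0 := by
    rw [Nat.sub_add_cancel (by omega), Nat.mod_self]
  simp only [e5] at hlast
  obtain ⟨h', e1, e2⟩ := key (m.length - 2) (by omega)
  have e6 : m.length - 2 + 1 = m.length - 1 := by omega
  simp only [e6] at e2 h'
  rw [e2, show m[0]'(by omega) = L[0]'(by omega) from rfl, hLlink.adj,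
    cycAdj_iff h' (by omega)] at hlast
  have hlen2 : m.length = L.length := by omega
  have hmL2 : m = L := by
    apply List.ext_getElem hlen2
    intro i h1 h2
    by_cases hi : i = 0
    · subst hi; rfl
    · obtain ⟨_, _, e⟩ := key (i - 1) (by omega)
      have e7 : i - 1 + 1 = i := by omega
      simpa only [e7] using e
  rw [hmL2]
  exact hLlink

theorem link_common {u v : V} {l : List V} (hl : IsLink G u l) (huv : G.Adj u v) :
    ∃ a b, a ≠ b ∧ ¬ G.Adj a b ∧ ∀ x, (G.Adj x u ∧ G.Adj x v) ↔ (x = a ∨ x = b) := by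
  obtain ⟨i, hi, hiv⟩ := List.getElem_of_mem ((hl.mem v).2 huv)
  have hlen := hl.len
  have hL : IsIndCycle G (l.rotate i) := indCycle_rotate i hl.toIsIndCycle
  have hmem : ∀ x, x ∈ l.rotate i ↔ G.Adj u x := fun x => by rw [List.mem_rotate, hl.mem]
  obtain ⟨L, rfl, hL, hmem, h1, e0⟩ : ∃ L, l.rotate i = L ∧ IsIndCycle G L ∧ (∀ x, x ∈ L ↔ G.Adj u x) ∧
      ∃ h1 : 4 ≤ L.length, L[0]'(by omega) = v := by
    refine ⟨_, rfl, hL, hmem, hL.len, ?_⟩
    rw [List.getElem_rotate]
    have : (0 + i) % l.length = i := by rw [zero_add, Nat.mod_eq_of_lt hi]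
    simp only [this, hiv]
  generalize l.rotate i = L at *
  refine ⟨L[1]'(by omega), L[L.length - 1]'(by omega), ?_, ?_, ?_⟩
  · intro h
    have := (List.Nodup.getElem_inj_iff hL.nodup).1 h
    omega
  · rw [hL.adj, cycAdj_iff (by omega) (by omega)]
    omega
  · intro x
    constructor
    · rintro ⟨h1, h2⟩
      obtain ⟨k, hk, rfl⟩ := List.getElem_of_mem ((hmem x).2 h1.symm)
      rw [← e0, hL.adj, cycAdj_iff hk (by omega)] at h2
      have : k = 1 ∨ k = L.length - 1 := by omega
      rcases this with rfl | rfl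
      · exact Or.inl rfl
      · exact Or.inr rfl
    · rintro (rfl | rfl)
      · refine ⟨((hmem _).1 (List.getElem_mem _)).symm, ?_⟩
        rw [← e0, hL.adj, cycAdj_iff (by omega) (by omega)]
        omega
      · refine ⟨((hmem _).1 (List.getElem_mem _)).symm, ?_⟩
        rw [← e0, hL.adj, cycAdj_iff (by omega) (by omega)]
        omega

theorem lapi : LinkApi where
  rotate := fun V G v l n h => ⟨indCycle_rotate n h.toIsIndCycle, fun x => by
    rw [List.mem_rotate, h.mem]⟩
  reverse := fun V G v l h => ⟨indCycle_reverse h.toIsIndCycle, fun x => by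
    rw [List.mem_reverse, h.mem]⟩
  first := by
    intro V G v a b l h ha hb hab
    obtain ⟨l', h1, h2, h3⟩ := indCycle_first h.toIsIndCycle ((h.mem a).2 ha) ((h.mem b).2 hb) hab
    exact ⟨l', ⟨h1, fun x => by rw [h3, h.mem]⟩, h2⟩
  dg := by
    classical
    intro V G v l h
    have e : G.neighborSet v = (l.toFinset : Set V) := by
      ext x
      rw [SimpleGraph.mem_neighborSet, ← h.mem]
      simp
    unfold StrongArb.dg
    rw [e, Set.ncard_coe_finset, List.toFinset_card_of_nodup h.nodup]
  common := fun V G u v l h huv => link_common h huv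
  closed := fun V G v l m h h1 h2 h3 h4 => link_closed h h1 h2 h3 h4

end StrongArb.H22
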